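import Pool.Agent.Y516.OJ.Stm

/-! Project OJ (helper516), job PAR: the numerical inequality. -/

set_option autoImplicit false

namespace Pool.Agent.Y492.OJ

open Pool.Agent.Y516.OJ

theorem exp_le : Real.exp (-(1 / 320)) ≤ (399 / 400 : ℝ) := by
  rw [Real.exp_neg]
  have h := Real.add_one_le_exp (1 / 320 : ℝ)
  refine (inv_anti₀ (by norm_num) h).trans ?_
  norm_num

theorem par : ParStm := by
  intro w b m M hw hb hm hM
  have hw' : (1 : ℝ) ≤ w := by exact_mod_cast hw
  have hb' : (1 : ℝ) ≤ b := by exact_mod_cast hb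
  have hmR : (m : ℝ) = 4000 * w := by rw [hm]; push_cast; ring
  have hMR : (M : ℝ) = 10000 * b * m := by rw [hM]; push_cast; ring
  have hm0 : (0 : ℝ) < m := by rw [hmR]; linarith
  have hb0 : (0 : ℝ) < b := by linarith
  have hM0 : (0 : ℝ) < M := by rw [hMR]; positivity
  have hmM : (m : ℝ) ≤ M := by
    rw [hMR]
    have h1 : (1 : ℝ) * m ≤ 10000 * b * m :=
      mul_le_mul_of_nonneg_right (by linarith) hm0.le
    linarith
  have hM1 : (1 : ℝ) ≤ M := by
    have : (4000 : ℝ) ≤ m := by rw [hmR]; linarith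
    linarith
  constructor
  · intro n hn
    have hn' : (n : ℝ) ≤ m := by exact_mod_cast hn
    have hn0 : (0 : ℝ) ≤ n := Nat.cast_nonneg n
    have hK : ((M ^ 2 / 8 : ℕ) : ℝ) = (M : ℝ) ^ 2 / 8 := by
      have h8 : 8 ∣ M ^ 2 := ⟨12500000 * (b * m) ^ 2, by rw [hM]; ring⟩
      rw [Nat.cast_div_charZero h8]
      push_cast
      ring
    have hx0 : 0 ≤ 1 - (1 / (M : ℝ)) ^ 2 * n / 40 := by
      have h1 : (1 / (M : ℝ)) ^ 2 * n ≤ 1 := by
        rw [one_div, inv_pow, inv_mul_le_iff₀ (by positivity)]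
        nlinarith
      have h2 : 0 ≤ (1 / (M : ℝ)) ^ 2 * n := by positivity
      linarith
    calc (1 - (1 / (M : ℝ)) ^ 2 * n / 40) ^ (M ^ 2 / 8)
        ≤ (Real.exp (-((1 / (M : ℝ)) ^ 2 * n / 40))) ^ (M ^ 2 / 8) :=
          pow_le_pow_left₀ hx0 (Real.one_sub_le_exp_neg _) _
      _ = Real.exp (((M ^ 2 / 8 : ℕ) : ℝ) * (-((1 / (M : ℝ)) ^ 2 * n / 40))) :=
          (Real.exp_nat_mul _ _).symm
      _ = Real.exp ((n : ℝ) * (-(1 / 320))) := by
          congr 1
          rw [hK]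
          field_simp
          ring
      _ = Real.exp (-(1 / 320)) ^ n := Real.exp_nat_mul _ _
      _ ≤ (399 / 400 : ℝ) ^ n := pow_le_pow_left₀ (Real.exp_pos _).le exp_le _
  · have hf : ((m / 10000 : ℕ) : ℝ) ≤ (m : ℝ) / 10000 := by
      have := Nat.cast_div_le (α := ℝ) (m := m) (n := 10000)
      push_cast at this
      exact this
    have hf0 : (0 : ℝ) ≤ ((m / 10000 : ℕ) : ℝ) := Nat.cast_nonneg _
    set f : ℝ := ((m / 10000 : ℕ) : ℝ) with hfdef
    have e1 : (2 : ℝ) ^ (m / 10000 : ℕ) = Real.exp (Real.log 2 * f) := by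
      rw [← Real.rpow_natCast, Real.rpow_def_of_pos (by norm_num)]
    have e2 : ((1 + 399 / 400) / 2 : ℝ) ^ ((m : ℝ) / 2 - f) =
        Real.exp (Real.log (799 / 800) * ((m : ℝ) / 2 - f)) := by
      rw [Real.rpow_def_of_pos (by norm_num)]
      norm_num
    have e3 : (b : ℝ) * m * (2 * m * (1 / (M : ℝ))) = (m : ℝ) / 5000 := by
      rw [hMR]
      field_simp
      ring
    have e4 : (2 : ℝ) ^ ((b : ℝ) * m * (2 * m * (1 / (M : ℝ)))) =
        Real.exp (Real.log 2 * ((m : ℝ) / 5000)) := by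
      rw [e3, Real.rpow_def_of_pos (by norm_num)]
    have e5 : (5 / 8 : ℝ) / 2 ^ w = Real.exp (Real.log (5 / 8) - Real.log 2 * w) := by
      rw [Real.exp_sub, Real.exp_log (by norm_num), ← Real.rpow_natCast,
        Real.rpow_def_of_pos (by norm_num)]
    rw [e1, e2, e4, e5, ← Real.exp_add, ← Real.exp_add]
    apply Real.exp_lt_exp.2
    have l1 : Real.log 2 < 0.6932 := lt_trans Real.log_two_lt_d9 (by norm_num)
    have l0 : 0 < Real.log 2 := Real.log_pos (by norm_num)
    have l2 : Real.log (799 / 800) ≤ -(1 / 800) := by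
      have := Real.log_le_sub_one_of_pos (show (0 : ℝ) < 799 / 800 by norm_num)
      linarith
    have l3 : -(3 / 5) ≤ Real.log (5 / 8) := by
      have h1 := Real.log_le_sub_one_of_pos (show (0 : ℝ) < 8 / 5 by norm_num)
      have h2 : Real.log (5 / 8) = -Real.log (8 / 5) := by
        rw [← Real.log_inv]
        norm_num
      rw [h2]
      linarith
    have h1 : Real.log (799 / 800) * ((m : ℝ) / 2 - f) ≤ -(1 / 800) * ((m : ℝ) / 2 - f) :=
      mul_le_mul_of_nonneg_right l2 (by linarith)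
    have h2 : Real.log 2 * f ≤ 0.6932 * ((m : ℝ) / 10000) :=
      mul_le_mul l1.le hf hf0 (by norm_num)
    have h3 : Real.log 2 * ((m : ℝ) / 5000) ≤ 0.6932 * ((m : ℝ) / 5000) :=
      mul_le_mul_of_nonneg_right l1.le (by positivity)
    have h4 : Real.log 2 * w ≤ 0.6932 * w :=
      mul_le_mul_of_nonneg_right l1.le (by linarith)
    rw [hmR] at h1 h2 h3 hf ⊢
    norm_num at h1 h2 h3 h4 hf ⊢
    linarith

end Pool.Agent.Y492.OJ
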